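import Pool.Agent.Y735.EL.Top

/-!
MP_c7af3c_ag, Q1: the conjecture of Lang, that a projective variety is groupless if and only if it is
arithmetically hyperbolic, for the generic complete intersections of dimension at least five.

Let `K` be an algebraically closed field of characteristic `0`, let `k` be a field contained in `K`,
with algebraic closure `k'` in `K`, and let `F_a`, for `a` in a finite set `A`, be forms of degrees
`d_a > 0` in `n + 1` variables over `K` whose coefficients are, for all `a` together, algebraically
independent over `k`. (For `k` countable and `K` uncountable this holds for all very general forms.)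
Let `X` be the complete intersection `F_a = 0`, `a ∈ A`, in projective space of dimension `n`, and
let `S = ∑ (d_a + 1)`. Suppose that `X` has dimension at least five, or more generally that one of
the inequalities `|A| + 5 ≤ n`, `S ≤ 2 n - 2`, `3 n + 3 ≤ S + ∑ d_a` holds. Then the following are
equivalent:

(1) `AlgHyp F`: `X` is algebraically hyperbolic, that is, for some `B` the degree of every morphism
    from a smooth projective curve of genus `g` to `X` is at most `B max (2 g - 2, 0)`;
(2) `Bounded F`: for each curve these degrees are bounded;
(3) `GenusOne F`: every morphism from a curve of genus at most one to `X` is constant;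
(4) `X` contains no lines;
(5) `S ≥ 2 n - 1`;
(6) for every subring of `K` that is generated by a finite set `T`, only finitely many points of `X`
    have homogeneous coordinates in the ring that generate the unit ideal of the ring;
(7) `X` has only finitely many points over every field generated over `k'` by a finite set `T`.

The curve is given by its function field `L`, the morphism by its homogeneous coordinates `f`; its
degree is `pht K f`, and `2 g - 2` is `canDeg K L`.

The conditions of the conjecture are in between. Grouplessness is implied by (2): a nonconstant
morphism from an abelian variety is nonconstant on some smooth projective curve that is mapped to the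
abelian variety, and the multiplications by the natural numbers give morphisms of unbounded degree
from this curve; and it implies (3), since every curve of genus at most one is dominated by an
elliptic curve. Arithmetic hyperbolicity is implied by (7), since the points over a finitely
generated ring are points over its field of fractions; and it implies (6), since for a ring that
contains the coefficients of the forms the points of (6) are points, over the ring, of the
closed subscheme of projective space given by the forms. Therefore `X` is groupless if and only if it
is arithmetically hyperbolic.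
-/

set_option autoImplicit false

namespace Pool.Agent.Results.MP_c7af3c_ag.GenericGroupless

open MvPolynomial FF Pool.Agent.W603.LV Pool.Agent.W603.PV LinearAlgebra.Projectivization

section defs

variable {K A : Type} [Field K] {n : ℕ}

/-- The vector `f` is the vector of homogeneous coordinates of a morphism to `F a = 0` (for all
`a`) from the smooth projective curve with function field `L`. -/
def IsMap (F : A → MvPolynomial (Fin (n + 1)) K) {L : Type} [Field L] [Algebra K L]
    (f : Fin (n + 1) → L) : Prop :=
  f ≠ 0 ∧ ∀ a, aeval f (F a) = 0

/-- The degrees of the morphisms from curves of genus `g` are at most `B max (2 g - 2, 0)`. -/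
def AlgHyp (F : A → MvPolynomial (Fin (n + 1)) K) : Prop :=
  ∃ B : ℕ, ∀ (L : Type) [Field L] [Algebra K L] [IsFF K L] (f : Fin (n + 1) → L),
    IsMap F f → pht K f ≤ B * max (canDeg K L) 0

/-- The degrees of the morphisms from each curve are bounded. -/
def Bounded (F : A → MvPolynomial (Fin (n + 1)) K) : Prop :=
  ∀ (L : Type) [Field L] [Algebra K L] [IsFF K L], ∃ B : ℤ, ∀ f : Fin (n + 1) → L,
    IsMap F f → pht K f ≤ B

/-- The morphisms from the curves of genus at most one are constant. -/
def GenusOne (F : A → MvPolynomial (Fin (n + 1)) K) : Prop :=
  ∀ (L : Type) [Field L] [Algebra K L] [IsFF K L], canDeg K L ≤ 0 → ∀ f : Fin (n + 1) → L,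
    IsMap F f → ∃ (c : L) (x : Fin (n + 1) → K), ∀ i, f i = c * algebraMap K L (x i)

/-- A line, given by a vector space of dimension two, that is contained in `F a = 0` for all `a`. -/
def IsLine (F : A → MvPolynomial (Fin (n + 1)) K) (W : Submodule K (Fin (n + 1) → K)) : Prop :=
  Module.finrank K W = 2 ∧ ∀ a, ∀ v ∈ W, eval v (F a) = 0

/-- The points of `F a = 0` with homogeneous coordinates in the ring generated by the set `T` which
generate the unit ideal of this ring. -/
def RingPoints (F : A → MvPolynomial (Fin (n + 1)) K) (T : Finset K) :
    Set (ℙ K (Fin (n + 1) → K)) :=
  {p | ∃ x : Fin (n + 1) → K, (∀ a, eval x (F a) = 0) ∧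
    (∀ i, x i ∈ Subring.closure (T : Set K)) ∧
    (∃ c : Fin (n + 1) → K, (∀ i, c i ∈ Subring.closure (T : Set K)) ∧ ∑ i, c i * x i = 1) ∧
    ∃ hx : x ≠ 0, p = Projectivization.mk K x hx}

/-- The points of `F a = 0` with coordinates in the field `E`. -/
def Points (F : A → MvPolynomial (Fin (n + 1)) K) (E : Subfield K) :
    Set (ℙ K (Fin (n + 1) → K)) :=
  {p | (∀ a, eval p.rep (F a) = 0) ∧
    ∃ x : Fin (n + 1) → K, (∀ i, x i ∈ E) ∧ ∃ hx : x ≠ 0, p = Projectivization.mk K x hx}

end defs

theorem result {k K : Type} [Field k] [Field K] [IsAlgClosed K] [CharZero K] [Algebra k K]
    {n : ℕ} (hn : 1 ≤ n) {A : Type} [Fintype A] {d : A → ℕ} (hd0 : ∀ a, 0 < d a)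
    -- for example, the dimension is at least five
    (hdim : Fintype.card A + 5 ≤ n ∨ ∑ a, (d a + 1) ≤ 2 * n - 2 ∨
      3 * n + 3 ≤ ∑ a, (d a + 1) + ∑ a, d a)
    -- the forms; their coefficients are algebraically independent over `k`
    (F : A → MvPolynomial (Fin (n + 1)) K) (hF : ∀ a, (F a).IsHomogeneous (d a))
    (hgen : AlgebraicIndependent k
      fun p : (a : A) × {I : Fin (n + 1) →₀ ℕ // I.degree = d a} => (F p.1).coeff p.2.1) :
    [AlgHyp F, Bounded F, GenusOne F, ∀ W, ¬ IsLine F W, 2 * n - 1 ≤ ∑ a, (d a + 1),
      ∀ T : Finset K, (RingPoints F T).Finite,
      ∀ T : Finset K, (Points F (IntermediateField.adjoin (algebraicClosure k K)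
        (T : Set K)).toSubfield).Finite].TFAE :=
  Pool.Agent.Y735.EL.groupless_tfae hn hd0 hdim F hF hgen

end Pool.Agent.Results.MP_c7af3c_ag.GenericGroupless
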