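import Pool.Agent.Y377.IR.Grp

/-!
# Groupless varieties and points given by iterated recurrences

Let `H` be a group. We consider the rings of functions on `H` (`FTow`) which are obtained from the
ring of the constants `ℂ` in finitely many steps of the following kind: the entries of an invertible
matrix `X(h)` of functions and of its inverse are added to the ring `R`, where for all `g` in `H` the
entries of `X(gh) X(h)⁻¹`, as functions of `h`, belong to `R`. For example the matrix coefficients of
the representations of `H` belong to such rings. For the integers these functions are given by
iterated recurrences (`IterRec`): the set of these sequences contains the constants and is closed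
under sums, products and solutions of systems `y(n + 1) = A(n) y(n)` such that the entries of `A` and
of `A⁻¹` belong to the set. So the coefficients of the recurrences can be any functions which have
been obtained before, for example `2 ^ n`, then `2 ^ (n ^ 2)` and the continuants with the partial
denominators `2 ^ n + n`, and so on. The families of points `P(h)`, `h ∈ H`, with homogeneous
coordinates in such a ring (`IteratedOn`) are the subject of the theorem.

Let `X` be a complex projective algebraic set.

(1) If all holomorphic maps from one-dimensional complex tori to `X` are constant (this is so if `X`
is a groupless variety) then `X` contains no rational curve.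

(2) The following are equivalent: `X` contains no rational curve; for all groups all families of
points of `X` given by iterated recurrences are finite; all sequences of points of `X` (indexed by
the integers) given by iterated recurrences are finite.

(3) For every family of points of the projective space given by iterated recurrences on a group `H`
there is a normal subgroup `Nn` of finite index in `H` such that on every coset the family is
constant or lies in the Zariski closure of the union of the rational curves in `Y`, for every closed
`Y` which contains the points of the coset, for instance for the Zariski closure of these points.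

The parts of the proof are due to helpers 312, 657, 921, 987, 523, 737, 495, 68, 401, 529 and to the
authors of the files on iterated linear differential equations (`Y377/IL`).
-/

set_option autoImplicit false

namespace Pool.Agent.Results.MP_c7af3c_ag.IteratedRecurrences

open MvPolynomial Pool.Agent.Y377.IR
open scoped LinearAlgebra.Projectivization
open Pool.Agent.TH143.EL (Rep InV)

variable {N : ℕ}

/-- all families of points of the algebraic set of `I` given by iterated recurrences are finite -/
def FamiliesFinite (I : Ideal (MvPolynomial (Fin (N + 1)) ℂ)) : Prop :=
  ∀ (H : Type) [Group H] (P : H → ℙ ℂ (Fin (N + 1) → ℂ)), IteratedOn P → (∀ h, InV I (P h)) →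
    (Set.range P).Finite

/-- all sequences of points of the algebraic set of `I` given by iterated recurrences are finite -/
def SequencesFinite (I : Ideal (MvPolynomial (Fin (N + 1)) ℂ)) : Prop :=
  ∀ (P : ℤ → ℙ ℂ (Fin (N + 1) → ℂ)) (f : Fin (N + 1) → ℤ → ℂ), (∀ j, IterRec (f j)) →
    (∀ n, Rep (P n) fun j => f j n) → (∀ n, InV I (P n)) → (Set.range P).Finite

theorem result :
    (∀ (N : ℕ) (I : Ideal (MvPolynomial (Fin (N + 1)) ℂ)),
      (NoTorusMaps I → ∀ p, ¬ RationalCurve I p) ∧
      List.TFAE [∀ p, ¬ RationalCurve I p, FamiliesFinite I, SequencesFinite I]) ∧
    ∀ (N : ℕ) (H : Type) [Group H] (P : H → ℙ ℂ (Fin (N + 1) → ℂ)), IteratedOn P →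
      ∃ Nn : Subgroup H, Nn.Normal ∧ Nn.FiniteIndex ∧ ∀ a, CosetAlternative Nn P a := by
  refine ⟨fun N I => ⟨noRational_of_torus, ?_⟩, fun N H _ P hP => cosets hP⟩
  tfae_have 1 → 2 := fun h H _ P hP hI => finite_of_noRational h hP hI
  tfae_have 2 → 3 := by
    intro h P f hf hP hI
    have h1 := h (Multiplicative ℤ) (fun m => P m.toAdd) (iteratedOn_int hf hP)
      fun m => hI m.toAdd
    refine h1.subset ?_
    rintro _ ⟨n, rfl⟩
    exact ⟨Multiplicative.ofAdd n, rfl⟩
  tfae_have 3 → 1 := by
    intro h p hp
    obtain ⟨P, f, hf, h1, h2, h3⟩ := infinite_of_rational hp
    exact h3 (h P f hf h1 h2)
  tfae_finish

end Pool.Agent.Results.MP_c7af3c_ag.IteratedRecurrences
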