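import Pool.Agent.Y213.R1.PartB

/-!
# Rational points of varieties finite over a power of an elliptic curve of rank at most one

`E : y² = x³ + a x + b` is an elliptic curve over `ℚ` such that `E(ℚ)` has rank at most one, and `X`
is a closed subvariety of `E ^ g × ℙ ^ n` over `ℚ`, the zero set of multihomogeneous polynomials
`G_1, …, G_q` with integral coefficients. Suppose that the fibres of `X → E ^ g` have at most `D`
points. Then every set `T` of rational points of `ℙ ^ n` such that `X` has a rational point over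
each element of `T`, and such that no two distinct elements of `T` are congruent modulo an integer
larger than `Y`, has at most `C (log Y) ^ (g / 2)` elements.

Two rational points of `ℙ ^ n` with integral coordinates `x` and `y` without common divisor are
congruent modulo `δ` if and only if `δ` divides all `x i * y j - x j * y i`. If all coordinates are
at most `B` in absolute value and the points are different, this is only possible for `δ ≤ 2 B ^ 2`,
so the theorem contains a bound for the number of points of bounded height.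
-/

set_option autoImplicit false

namespace Pool.Agent.Results.MP_c7af3c_ag.RankOneFiniteFibres

open MvPolynomial

open scoped LinearAlgebra.Projectivization

/-- the curve `y² = x³ + a x + b` over `ℚ` -/
def crv (a b : ℤ) : WeierstrassCurve ℚ := ⟨0, 0, 0, a, b⟩

/-- `v` are homogeneous coordinates of a point of the curve `y² = x³ + a x + b` -/
def OnE {k : Type} [Field k] (a b : k) (v : Fin 3 → k) : Prop :=
  v ≠ 0 ∧ v 1 ^ 2 * v 2 = v 0 ^ 3 + a * v 0 * v 2 ^ 2 + b * v 2 ^ 3

/-- `F` is homogeneous of degree `d i` in the coordinates `(i, 0), (i, 1), (i, 2)` of the `i`-th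
point of the plane, and homogeneous of degree `m` in the last `n + 1` variables -/
def MultiHom {g n : ℕ} (F : MvPolynomial ((Fin g × Fin 3) ⊕ Fin (n + 1)) ℤ)
    (d : Fin g → ℕ) (m : ℕ) : Prop :=
  ∀ e ∈ F.support, (∀ i, ∑ j, e (Sum.inl (i, j)) = d i) ∧ ∑ i, e (Sum.inr i) = m

/-- `G_e(V; x) = 0` for all `e` -/
def Zero {k : Type} [Field k] {g n q : ℕ}
    (G : Fin q → MvPolynomial ((Fin g × Fin 3) ⊕ Fin (n + 1)) ℤ) (V : Fin g → Fin 3 → k)
    (x : Fin (n + 1) → k) : Prop :=
  ∀ e, eval₂ (Int.castRingHom k) (Sum.elim (fun ij => V ij.1 ij.2) x) (G e) = 0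

/-- the point of `ℙ ^ n (ℚ)` with coordinates `x` lies below a rational point `(V, x)` of `X` -/
def Below (a b : ℤ) {g n q : ℕ} (G : Fin q → MvPolynomial ((Fin g × Fin 3) ⊕ Fin (n + 1)) ℤ)
    (x : Fin (n + 1) → ℚ) : Prop :=
  ∃ V : Fin g → Fin 3 → ℚ, (∀ i, OnE (a : ℚ) (b : ℚ) (V i)) ∧ Zero G V x

theorem result (a b : ℤ) (hE : 4 * a ^ 3 + 27 * b ^ 2 ≠ 0)
    -- the rank of `E(ℚ)` is at most one
    (hr : ∀ Q R : (crv a b).toAffine.Point, ∃ m n : ℤ, (m ≠ 0 ∨ n ≠ 0) ∧ m • Q + n • R = 0)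
    (g n q : ℕ) (G : Fin q → MvPolynomial ((Fin g × Fin 3) ⊕ Fin (n + 1)) ℤ)
    (d : Fin q → Fin g → ℕ) (m : Fin q → ℕ) (hG : ∀ e, MultiHom (G e) (d e) (m e)) (D : ℕ)
    -- the fibres have at most `D` points
    (hX : ∀ V : Fin g → Fin 3 → ℂ, (∀ i, OnE (a : ℂ) (b : ℂ) (V i)) →
      {y : ℙ ℂ (Fin (n + 1) → ℂ) | Zero G V y.rep}.encard ≤ D) :
    ∃ C : ℝ, ∀ Y : ℝ, 2 ≤ Y → ∀ T : Finset (Fin (n + 1) → ℤ),
      (∀ x ∈ T, Below a b G (fun i => (x i : ℚ))) →
      (∀ x ∈ T, ∀ y ∈ T, x ≠ y → (∃ i j, x i * y j ≠ x j * y i) ∧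
        ∀ δ : ℕ, (∀ i j, (δ : ℤ) ∣ x i * y j - x j * y i) → (δ : ℝ) ≤ Y) →
      (T.card : ℝ) ≤ C * Real.log Y ^ ((g : ℝ) / 2) := by
  obtain ⟨C, _, H⟩ := Pool.Agent.Y213.R1.partB hE hr G d m (fun e x hx => (hG e x hx).1)
    (fun e x hx => (hG e x hx).2) D hX
  exact ⟨C, H⟩

end Pool.Agent.Results.MP_c7af3c_ag.RankOneFiniteFibres
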